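import Pool.Agent.H70.PT.Targets

/-!
# (CNT): all sequences of coins occur once
-/

set_option autoImplicit false

namespace Pool.Agent.H32.PT

open List Finset Pool.Agent.H70.PT
open Pool.Agent.H68.TG (hf t3)

theorem hf_two (s : Bool) (a z : ℕ) : hf s (2 * a + z) = a + hf s z := by
  unfold hf
  cases s <;> simp <;> omega

theorem t3_add (e : Bool) (m j z : ℕ) : t3 e (m * j + z) = t3 e m * j + t3 e z := by
  unfold t3
  cases e <;> simp <;> ring

theorem t3_odd (e : Bool) (m : ℕ) (h : Odd m) : Odd (t3 e m) := by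
  unfold t3
  cases e
  · simpa using h
  · simp only [if_true]
    exact Odd.mul (by decide) h

theorem bodd_odd {m : ℕ} (h : Odd m) : m.bodd = true := by
  obtain ⟨k, rfl⟩ := h
  rw [Nat.bodd_add, Nat.bodd_mul]
  rfl

theorem tn_bodd {r : ℕ} (c : Fin r → Bool) (i : Fin r) : (tn c i).bodd = c i := by
  unfold tn
  cases c i <;> rfl

theorem bodd_sum {r : ℕ} (S : Finset (Fin r)) (A B : Fin r → ℕ)
    (h : ∀ i, (A i).bodd = (B i).bodd) : (∑ i ∈ S, A i).bodd = (∑ i ∈ S, B i).bodd := by
  classical
  induction S using Finset.induction_on with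
  | empty => simp
  | insert j S hj ih => rw [Finset.sum_insert hj, Finset.sum_insert hj, Nat.bodd_add,
      Nat.bodd_add, ih, h]

theorem pst_congr {r : ℕ} (a : Bool) (X Y : Fin r → ℕ) (h : ∀ i, (X i).bodd = (Y i).bodd)
    (i : ℕ) : pst a X i = pst a Y i := by
  unfold pst
  congr 1
  apply bodd_sum
  intro j
  by_cases hj : (j : ℕ) < i
  · simp only [hj, if_true]
    exact h j
  · simp only [hj, if_false]

theorem sb_congr {r : ℕ} (a : Bool) (X Y X' Y' : Fin r → ℕ) (h : ∀ i, (X i).bodd = (X' i).bodd)
    (h' : ∀ i, (Y i).bodd = (Y' i).bodd) (i : ℕ) : sb (a, X, Y) i = sb (a, X', Y') i := by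
  unfold sb
  show pst (pst a X r) Y i = pst (pst a X' r) Y' i
  rw [pst_congr a X X' h r, pst_congr _ Y Y' h' i]

/-- the halves -/
def e1 (n : ℕ) : Bool × Fin (2 ^ n) ≃ Fin (2 ^ (n + 1)) where
  toFun z := ⟨2 * (z.2 : ℕ) + cond z.1 1 0, by
    have h := z.2.2
    have h2 : 2 ^ (n + 1) = 2 * 2 ^ n := by ring
    cases z.1 <;> simp only [cond_true, cond_false] <;> omega⟩
  invFun y := ((y : ℕ).bodd, ⟨(y : ℕ) / 2, by
    have h := y.2
    have h2 : 2 ^ (n + 1) = 2 * 2 ^ n := by ring
    omega⟩)
  left_inv z := by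
    obtain ⟨b, x⟩ := z
    apply Prod.ext
    · cases b <;> simp
    · apply Fin.ext
      cases b <;> simp <;> omega
  right_inv y := by
    apply Fin.ext
    have h := Nat.bodd_add_div2 (y : ℕ)
    rw [Nat.div2_val] at h
    show 2 * ((y : ℕ) / 2) + cond (y : ℕ).bodd 1 0 = y
    cases hb : (y : ℕ).bodd
    · rw [hb] at h
      simp at h ⊢
      omega
    · rw [hb] at h
      simp at h ⊢
      omega

theorem sum_half (r n : ℕ) (G : (Fin r → ℕ) → ℝ) :
    ∑ X : Fin r → Fin (2 ^ (n + 1)), G (fun i => X i) =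
      ∑ c : Fin r → Bool, ∑ X : Fin r → Fin (2 ^ n), G (fun i => 2 * (X i : ℕ) + tn c i) := by
  rw [← Fintype.sum_prod_type']
  symm
  apply Fintype.sum_equiv ((Equiv.arrowProdEquivProdArrow (Fin r) (fun _ => Bool)
    (fun _ => Fin (2 ^ n))).symm.trans (Equiv.piCongrRight fun _ => e1 n))
  intro z
  rfl

theorem PP_succ {r : ℕ} (n : ℕ) (q : Cf r) (i : Fin r) :
    PP (n + 1) q i = cP q i + PP n (nx q) i := by
  unfold PP
  rw [Finset.sum_range_succ', add_comm]
  rfl

theorem QQ_succ {r : ℕ} (n : ℕ) (q : Cf r) (i : Fin r) :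
    QQ (n + 1) q i = cQ q i + QQ n (nx q) i := by
  unfold QQ
  rw [Finset.sum_range_succ', add_comm]
  rfl

/-- the involution -/
def inv {r : ℕ} (β : Fin r → Bool) : (Fin r → Bool) ≃ (Fin r → Bool) where
  toFun c := fun i => xor (c i) (β i)
  invFun c := fun i => xor (c i) (β i)
  left_inv c := by
    funext i
    show xor (xor (c i) (β i)) (β i) = c i
    cases c i <;> cases β i <;> rfl
  right_inv c := by
    funext i
    show xor (xor (c i) (β i)) (β i) = c i
    cases c i <;> cases β i <;> rfl

theorem SS_succ (r n : ℕ) (F : (Fin r → ℕ) → (Fin r → ℕ) → ℝ) :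
    SS r (n + 1) F = ∑ c : Fin r → Bool, ∑ d : Fin r → Bool,
      SS r n (fun X Y => F (fun i => 2 * X i + tn c i) (fun i => 2 * Y i + tn d i)) := by
  unfold SS
  rw [sum_half r n (fun X => ∑ Y : Fin r → Fin (2 ^ (n + 1)), F X (fun i => Y i))]
  apply Finset.sum_congr rfl
  intro c _
  show _ = ∑ d : Fin r → Bool, ∑ X : Fin r → Fin (2 ^ n), ∑ Y : Fin r → Fin (2 ^ n),
    F (fun i => 2 * (X i : ℕ) + tn c i) (fun i => 2 * (Y i : ℕ) + tn d i)
  symm
  rw [Finset.sum_comm]
  symm
  apply Finset.sum_congr rfl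
  intro X _
  exact sum_half r n (fun Y => F (fun i => 2 * (X i : ℕ) + tn c i) Y)

theorem pf_CNT : T_CNT := by
  intro r f n
  induction n with
  | zero =>
    intro a P Q u v p s _ _
    unfold SS
    simp [PP, QQ, tot]
  | succ n ih =>
    intro a P Q u v p s hu hv
    rw [SS_succ]
    have key : ∀ c d : Fin r → Bool,
        SS r n (fun X Y => (fun X Y => f
          (fun i => P i + PP (n + 1) (a, fun i => u i * X i + p i, fun i => v i * Y i + s i) i)
          (fun i => Q i + QQ (n + 1) (a, fun i => u i * X i + p i, fun i => v i * Y i + s i) i))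
          (fun i => 2 * X i + tn c i) (fun i => 2 * Y i + tn d i)) =
        tot f n (sb (a, tn (inv (fun i => (p i).bodd) c), tn (inv (fun i => (s i).bodd) d)) r)
          (fun i => P i + cP (a, tn (inv (fun i => (p i).bodd) c),
            tn (inv (fun i => (s i).bodd) d)) i)
          (fun i => Q i + cQ (a, tn (inv (fun i => (p i).bodd) c),
            tn (inv (fun i => (s i).bodd) d)) i) := by
      intro c d
      set c' := inv (fun i => (p i).bodd) c with hc'
      set d' := inv (fun i => (s i).bodd) d with hd'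
      have hpar : ∀ X : Fin r → ℕ, ∀ i, (u i * (2 * X i + tn c i) + p i).bodd =
          (tn c' i).bodd := by
        intro X i
        rw [tn_bodd, Nat.bodd_add, Nat.bodd_mul, bodd_odd (hu i), Nat.bodd_add, tn_bodd]
        show _ = xor (c i) (p i).bodd
        simp
      have hpar' : ∀ Y : Fin r → ℕ, ∀ i, (v i * (2 * Y i + tn d i) + s i).bodd =
          (tn d' i).bodd := by
        intro Y i
        rw [tn_bodd, Nat.bodd_add, Nat.bodd_mul, bodd_odd (hv i), Nat.bodd_add, tn_bodd]
        show _ = xor (d i) (s i).bodd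
        simp
      set q0 : Cf r := (a, tn c', tn d') with hq0
      rw [← ih (sb q0 r) (fun i => P i + cP q0 i) (fun i => Q i + cQ q0 i)
        (fun i => t3 (sb q0 i) (u i)) (fun i => t3 (pst a (tn c') (i + 1)) (v i))
        (fun i => t3 (sb q0 i) (hf (pst a (tn c') i) (u i * tn c i + p i)))
        (fun i => hf (sb q0 i) (t3 (pst a (tn c') (i + 1)) (v i * tn d i + s i)))
        (fun i => t3_odd _ _ (hu i)) (fun i => t3_odd _ _ (hv i))]
      congr 1
      funext X Y
      have hsb : ∀ i, sb (a, fun i => u i * (2 * X i + tn c i) + p i,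
          fun i => v i * (2 * Y i + tn d i) + s i) i = sb q0 i := fun i =>
        sb_congr a _ _ _ _ (hpar X) (hpar' Y) i
      have hps : ∀ i, pst a (fun i => u i * (2 * X i + tn c i) + p i) i = pst a (tn c') i :=
        fun i => pst_congr a _ _ (hpar X) i
      have hnx : nx (a, fun i => u i * (2 * X i + tn c i) + p i,
          fun i => v i * (2 * Y i + tn d i) + s i) =
          (sb q0 r, fun i : Fin r => t3 (sb q0 i) (u i) * X i +
            t3 (sb q0 i) (hf (pst a (tn c') i) (u i * tn c i + p i)),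
            fun i : Fin r => t3 (pst a (tn c') (i + 1)) (v i) * Y i +
            hf (sb q0 i) (t3 (pst a (tn c') (i + 1)) (v i * tn d i + s i))) := by
        unfold nx
        refine Prod.ext ?_ (Prod.ext ?_ ?_)
        · exact hsb r
        · funext i
          show t3 (sb _ i) (hf (pst a (fun i => u i * (2 * X i + tn c i) + p i) i)
            (u i * (2 * X i + tn c i) + p i)) = _
          rw [hsb, hps, show u i * (2 * X i + tn c i) + p i =
            2 * (u i * X i) + (u i * tn c i + p i) by ring, hf_two, t3_add]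
        · funext i
          show hf (sb _ i) (t3 (pst a (fun i => u i * (2 * X i + tn c i) + p i) (i + 1))
            (v i * (2 * Y i + tn d i) + s i)) = _
          rw [hsb, hps, show v i * (2 * Y i + tn d i) + s i =
            v i * (2 * Y i) + (v i * tn d i + s i) by ring, t3_add,
            show t3 (pst a (tn c') (i + 1)) (v i) * (2 * Y i) =
              2 * (t3 (pst a (tn c') (i + 1)) (v i) * Y i) by ring, hf_two]
      have hcP : ∀ i, cP (a, fun i => u i * (2 * X i + tn c i) + p i,
          fun i => v i * (2 * Y i + tn d i) + s i) i = cP q0 i := by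
        intro i
        unfold cP
        rw [hsb]
      have hcQ : ∀ i, cQ (a, fun i => u i * (2 * X i + tn c i) + p i,
          fun i => v i * (2 * Y i + tn d i) + s i) i = cQ q0 i := by
        intro i
        unfold cQ
        show cond (pst a (fun i => u i * (2 * X i + tn c i) + p i) (i + 1)) 1 0 =
          cond (pst a (tn c') (i + 1)) 1 0
        rw [hps]
      show f (fun i => P i + PP (n + 1) (a, fun i => u i * (2 * X i + tn c i) + p i,
          fun i => v i * (2 * Y i + tn d i) + s i) i) (fun i => Q i + QQ (n + 1)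
          (a, fun i => u i * (2 * X i + tn c i) + p i,
          fun i => v i * (2 * Y i + tn d i) + s i) i) = _
      simp only [PP_succ, QQ_succ, hnx, hcP, hcQ, add_assoc]
    simp only [key]
    show _ = ∑ c : Fin r → Bool, ∑ d : Fin r → Bool,
      tot f n (sb (a, tn c, tn d) r) (fun i => P i + cP (a, tn c, tn d) i)
        (fun i => Q i + cQ (a, tn c, tn d) i)
    rw [← Equiv.sum_comp (inv (fun i => (p i).bodd)) (fun c => ∑ d : Fin r → Bool,
      tot f n (sb (a, tn c, tn d) r) (fun i => P i + cP (a, tn c, tn d) i)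
        (fun i => Q i + cQ (a, tn c, tn d) i))]
    apply Finset.sum_congr rfl
    intro c _
    exact Equiv.sum_comp (inv (fun i => (s i).bodd)) (fun d =>
      tot f n (sb (a, tn (inv (fun i => (p i).bodd) c), tn d) r)
        (fun i => P i + cP (a, tn (inv (fun i => (p i).bodd) c), tn d) i)
        (fun i => Q i + cQ (a, tn (inv (fun i => (p i).bodd) c), tn d) i))

end Pool.Agent.H32.PT
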